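import Pool.Agent.TH720.MP.Main

/-!
# The sign conjecture is a statement about the middle cohomology

`W` is a Weil cohomology theory with coefficient field `K` and `P m` (with the divisor `h m`) looks
like the projective space of dimension `m`.

**One variety.** Let `Y = X × P m` with `m ≥ dim X - 1`, and `n = dim Y`. The sign conjecture
`C⁺(X)` is equivalent to each of: `C⁺(Y)`; an algebraic cycle on `Y × Y` acts as the identity on the
middle cohomology `H^n(Y)` and as zero on the `H^j(Y)` with `j < n` of the other parity; some
`K`-combination of algebraic correspondences is injective on `H^n(Y)` and nilpotent on these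
`H^j(Y)`; any class in `H^n(Y)` can be separated from any class in these `H^j(Y)` by a
`K`-combination of algebraic correspondences; the dual statement about classes on `Y × Y` which are
orthogonal to all algebraic cycles.

**All varieties.** For a class of varieties closed under the products with the `P m` the sign
conjecture is equivalent to each of the last four statements for all `Y` of odd dimension in the
class, and also to each of them for all `Y` of even dimension.
-/

open CategoryTheory AlgebraicGeometry

universe u v

namespace Pool.Agent.Results.MP_56c18a_ag.MiddleParity

open Pool.Agent.H914 Pool.Agent.H447 Pool.Agent.TH720.LB Pool.Agent.TH720.MP VarClass Obj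

/-- **The sign conjecture holds if and only if the middle cohomology can be separated from the lower
cohomology of the other parity by algebraic correspondences.** -/
theorem result {k : Type u} [Field k] {𝒱 : VarClass k} {ops : CycleOps 𝒱}
    (W : WeilCohomology.{u, v} ops) (P : ℕ → 𝒱.Obj) (h : ∀ m, (P m).Cycles)
    (hdim : ∀ m, (P m).dim = m) (hP : ∀ m, ProjLike W (P m) (h m)) :
    (∀ (X : 𝒱.Obj) (m : ℕ), X.dim ≤ m + 1 → OneVariety W X (X.prod (P m))) ∧
    ∀ C : 𝒱.Obj → Prop, ClosedUnder P C → AllVarieties W C :=
  ⟨fun X m hm => one_tfae (X := X) (hP m).to (by rw [hdim]; exact hm),
    fun _ hC => all_tfae hdim (fun m => (hP m).to) hC⟩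

end Pool.Agent.Results.MP_56c18a_ag.MiddleParity
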