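import Pool.Agent.H578R3.SgnCyc

/-!
# The sign conjecture and the largest rank of a numerical projector

Let `X` be a smooth proper variety over a field which has a Weil cohomology theory. Consider the
cycles `z` of codimension `dim X` on `X × X` for which `z ∘ z` is numerically equivalent to `z`, and
their intersection numbers with the diagonal. These rational numbers have a maximum `β`, and there is
one cycle `P` such that, for every Weil cohomology theory `W`:

* `β` is at most the sum of the even Betti numbers of `X`;
* the sign conjecture for `X` and `W` holds if and only if `P` induces the projector onto the even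
  cohomology, and if and only if `β` is equal to the sum of the even Betti numbers.
-/

open Pool.Agent.H914 Pool.Agent.H447 Pool.Agent.H578R3.Sgn Pool.Agent.H914.VarClass
  Pool.Agent.H914.VarClass.Obj

universe u v

namespace Pool.Agent.Results.MP_56c18a_ag.UniversalProjector

/-- **The sign conjecture is the equality of the sum of the even Betti numbers with a number defined
by the intersection numbers of cycles, and one cycle decides it for all Weil cohomology theories.** -/
theorem result {k : Type u} [Field k] {𝒱 : VarClass k} {ops : CycleOps 𝒱} (X : 𝒱.Obj)
    (W₀ : WeilCohomology.{u, v} ops) :
    ∃ P, (X.prod X).IsCyc X.dim P ∧ ∃ β : ℚ,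
      IsGreatest {d | ∃ z, NumProjector ops X z ∧ diagNumber ops X z = d} β ∧
      ∀ W : WeilCohomology.{u, v} ops, β ≤ evenBetti W X ∧
        List.TFAE [SignStd W X, InducesEven W X P, (evenBetti W X : ℚ) = β] :=
  sign_universal X W₀

end Pool.Agent.Results.MP_56c18a_ag.UniversalProjector
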